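import Pool.Agent.Run7.h22.Kse4

/-!
MP_f4cece_nt, Q1: the points of small arithmetic degree for the endomorphisms which commute with a
group of automorphisms of rank `ρ - 1`.
-/

set_option autoImplicit false

open Filter Topology
open Pool.Agent.Q8.KS Run7.h334.KSR

namespace Pool.Agent.Results.MP_f4cece_nt.CommutingEndomorphisms

variable {G : Type} [Group G]

/-- `g` is a surjective morphism `V → V` over `K` which commutes with the automorphisms `f_v`, on
points and on classes, and the pullback of an integral class is integral (a standard fact). -/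
structure Commutes {V : ProjVariety G} {r : ℕ} (Φ : LatticeAction V r)
    (g : Morphism V.toVariety V.toVariety) : Prop where
  surjective : Function.Surjective g.pt
  points : ∀ v x, g.pt ((Φ.f v).pt x) = (Φ.f v).pt (g.pt x)
  classes : ∀ v D, g.ns ((Φ.f v).ns D) = (Φ.f v).ns (g.ns D)
  lattice : PreservesLattice V.lattice g

/-- The points of degree at most `N` over `K` at which the arithmetic degree of `g` is not `d`. -/
def smallPoints {V : ProjVariety G} (g : Morphism V.toVariety V.toVariety) (u : V.Pt → ℝ) (d : ℝ)
    (N : ℕ) : Set V.Pt :=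
  {x | (MulAction.orbit G x).ncard ≤ N ∧ ¬ IsArithmeticDegree g u x d}

/-- Let `V` be a projective variety over a number field `K` with absolute Galois group `G` and
Picard number `r + 1 ≥ 2`, let `ℤ ^ r` act on `V` by automorphisms `f_v` over `K` such that
`d₁(f_v) > 1` for all `v ≠ 0`, and let `u` be a height of an ample class `A`. (For `r = 1` this is one
automorphism with `d₁ > 1` of a variety with Picard number two.) Let `g : V → V` be a surjective
endomorphism over `K`, invertible or not, which commutes with all `f_v`. Then `d₁(g)` exists,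
`d₁(g) ≥ 1`, for every `N` the set of the points `x` with `[K(x) : K] ≤ N` and `a_g(x) ≠ d₁(g)` is
finite, in particular it is not Zariski dense, and all its points have a finite orbit under `g` and
under the group. -/
theorem result (V : ProjVariety G) {r : ℕ} (hr : 0 < r) (hρ : Module.finrank ℝ V.NS = r + 1)
    (Φ : LatticeAction V r) (A : V.Pic) (hA : V.IsAmple A) (u : V.Pt → ℝ) (hu : V.IsHeight A u)
    (hpos : ∀ v : Fin r → ℤ, v ≠ 0 → ∃ d, 1 < d ∧ IsDynamicalDegree (Φ.f v) A d)
    (g : Morphism V.toVariety V.toVariety) (hg : Commutes Φ g) :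
    ∃ d, 1 ≤ d ∧ IsDynamicalDegree g A d ∧ ∀ N : ℕ,
      (smallPoints g u d N).Finite ∧ ¬ Dense (smallPoints g u d N) ∧
      ∀ x ∈ smallPoints g u d N, (Set.range fun n : ℕ => g.pt^[n] x).Finite ∧
        (Set.range fun v => (Φ.f v).pt x).Finite := by
  obtain ⟨h1, h2, d, hd, hdyn⟩ := Run7.h22.Kse.small hr hρ Φ hA hu hpos g
    (g.injective hg.surjective) hg.points hg.classes hg.lattice
  have key : ∀ N : ℕ, ∀ x ∈ smallPoints g u d N, (Set.range fun n : ℕ => g.pt^[n] x).Finite ∧
      (Set.range fun v => (Φ.f v).pt x).Finite := by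
    intro N x hx
    rcases h1 x with h | h
    · exact ⟨h.2.1, h.1⟩
    · exact absurd (h.2 d hdyn) hx.2
  refine ⟨d, hd, hdyn, fun N => ?_⟩
  have hfin : (smallPoints g u d N).Finite :=
    (h2 N).subset fun x hx => ⟨hx.1, (key N x hx).2⟩
  refine ⟨hfin, fun hden => ?_, key N⟩
  have h3 := hden.closure_eq
  rw [hfin.isClosed.closure_eq] at h3
  rw [h3] at hfin
  exact Set.infinite_univ hfin

end Pool.Agent.Results.MP_f4cece_nt.CommutingEndomorphisms
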